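import Pool.Agent.Run7.h543.DEP.Stm2

/-! # Pieces RAD, SPH, TLO of the project DEP (helper543) -/

set_option autoImplicit false
set_option linter.unusedVariables false
set_option linter.unusedSectionVars false

noncomputable section

namespace Run7.h56.DEP

open Finset Matrix Run7.h543.DEP

variable {V : Type} [Fintype V] [DecidableEq V] {Gr : SimpleGraph V} [DecidableRel Gr.Adj]

theorem exists_closer (hc : Gr.Connected) {x y : V} (h : 0 < Gr.dist x y) :
    ∃ z, Gr.Adj y z ∧ Gr.dist x z + 1 = Gr.dist x y := by
  obtain ⟨p, hp⟩ := hc.exists_walk_length_eq_dist y x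
  cases p with
  | nil =>
    rw [SimpleGraph.dist_self] at h
    omega
  | @cons _ z _ hadj q =>
    refine ⟨z, hadj, ?_⟩
    have h1 : Gr.dist z x ≤ q.length := SimpleGraph.dist_le q
    rw [SimpleGraph.Walk.length_cons, SimpleGraph.dist_comm] at hp
    rw [SimpleGraph.dist_comm] at h1
    have h2 := hadj.diff_dist_adj (u := x)
    omega

theorem zero_iff (hc : Gr.Connected) {x y : V} : Gr.dist x y = 0 ↔ x = y := hc.dist_eq_zero_iff

theorem t_RAD' {D R : ℕ} (h : IsTreelike Gr D R) (x y : V) (r : ℕ) (hr : r < R) :
    (univ.filter fun z => Gr.Adj y z ∧ Gr.dist x z = r).card =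
      (if Gr.dist x y = r + 1 then 1 else 0) +
      (if Gr.dist x y + 1 = r then (if r = 1 then D else D - 1) else 0) := by
  have hdiff : ∀ z, Gr.Adj y z → Gr.dist x z = Gr.dist x y ∨ Gr.dist x z = Gr.dist x y + 1 ∨
      Gr.dist x z = Gr.dist x y - 1 := fun z hz => hz.diff_dist_adj
  by_cases hA : Gr.dist x y = r + 1
  · rw [if_pos hA, if_neg (by omega), add_zero]
    have h1 := h.tree x y (by omega) (by omega)
    obtain ⟨z, hz, hz1⟩ := exists_closer h.conn (x := x) (y := y) (by omega)
    refine le_antisymm ?_ ?_
    · rw [← h1]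
      refine Finset.card_le_card fun w hw => ?_
      simp only [mem_filter, mem_univ, true_and] at hw ⊢
      exact ⟨hw.1, by omega⟩
    · rw [Nat.succ_le_iff, Finset.card_pos]
      exact ⟨z, by simp only [mem_filter, mem_univ, true_and]; exact ⟨hz, by omega⟩⟩
  · rw [if_neg hA, zero_add]
    by_cases hB : Gr.dist x y + 1 = r
    · rw [if_pos hB]
      rcases Nat.eq_zero_or_pos (Gr.dist x y) with h0 | hpos
      · rw [if_pos (by omega)]
        have hxy : x = y := (zero_iff h.conn).1 h0
        subst hxy
        rw [← h.reg x]
        congr 1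
        ext z
        simp only [mem_filter, mem_univ, true_and]
        constructor
        · exact fun hz => hz.1
        · intro hz
          refine ⟨hz, ?_⟩
          have h2 := SimpleGraph.dist_eq_one_iff_adj.2 hz
          omega
      · rw [if_neg (by omega)]
        have h1 := h.tree x y hpos (by omega)
        have h2 := h.reg y
        have h3 := Finset.card_filter_add_card_filter_not (s := univ.filter fun z => Gr.Adj y z)
          (fun z => Gr.dist x z ≤ Gr.dist x y)
        rw [Finset.filter_filter, Finset.filter_filter, h1, h2] at h3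
        have h4 : (univ.filter fun z => Gr.Adj y z ∧ Gr.dist x z = r) =
            univ.filter fun z => Gr.Adj y z ∧ ¬ Gr.dist x z ≤ Gr.dist x y := by
          ext z
          simp only [mem_filter, mem_univ, true_and]
          constructor
          · exact fun hz => ⟨hz.1, by omega⟩
          · intro hz
            refine ⟨hz.1, ?_⟩
            rcases hdiff z hz.1 with h5 | h5 | h5 <;> omega
        rw [h4]
        omega
    · rw [if_neg hB, Finset.card_eq_zero, Finset.filter_eq_empty_iff]
      rintro z - ⟨hz, hzr⟩
      have hrd : r = Gr.dist x y := by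
        rcases hdiff z hz with h5 | h5 | h5 <;> omega
      rcases Nat.eq_zero_or_pos (Gr.dist x y) with h0 | hpos
      · have h1 : x = y := (zero_iff h.conn).1 h0
        have h2 : x = z := (zero_iff h.conn).1 (by omega)
        subst h1
        subst h2
        exact Gr.loopless.irrefl _ hz
      · have h1 := h.tree x y hpos (by omega)
        obtain ⟨w, hw, hw1⟩ := exists_closer h.conn (x := x) (y := y) hpos
        obtain ⟨v, hv⟩ := Finset.card_eq_one.1 h1
        have e1 : z ∈ univ.filter fun z => Gr.Adj y z ∧ Gr.dist x z ≤ Gr.dist x y := by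
          simp only [mem_filter, mem_univ, true_and]
          exact ⟨hz, by omega⟩
        have e2 : w ∈ univ.filter fun z => Gr.Adj y z ∧ Gr.dist x z ≤ Gr.dist x y := by
          simp only [mem_filter, mem_univ, true_and]
          exact ⟨hw, by omega⟩
        rw [hv, mem_singleton] at e1 e2
        rw [e1, ← e2] at hzr
        omega

/-- **RAD** -/
theorem t_RAD : S_RAD := fun V _ _ Gr _ D R _ h x y r hr => t_RAD' h x y r hr

/-- the number of neighbours in the next sphere -/
theorem next_card {D R : ℕ} (h : IsTreelike Gr D R) (x z : V) (r : ℕ) (hr : r < R)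
    (hz : Gr.dist x z = r) :
    (univ.filter fun y => Gr.Adj z y ∧ Gr.dist x y = r + 1).card = if r = 0 then D else D - 1 := by
  have hdiff : ∀ y, Gr.Adj z y → Gr.dist x y = Gr.dist x z ∨ Gr.dist x y = Gr.dist x z + 1 ∨
      Gr.dist x y = Gr.dist x z - 1 := fun y hy => hy.diff_dist_adj
  rcases Nat.eq_zero_or_pos r with h0 | hpos
  · rw [if_pos h0, ← h.reg z]
    congr 1
    ext y
    simp only [mem_filter, mem_univ, true_and]
    constructor
    · exact fun hy => hy.1
    · intro hy
      refine ⟨hy, ?_⟩
      have h1 : x = z := (zero_iff h.conn).1 (by omega)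
      subst h1
      have h2 := SimpleGraph.dist_eq_one_iff_adj.2 hy
      omega
  · rw [if_neg (by omega)]
    have h1 := h.tree x z (by omega) (by omega)
    have h2 := h.reg z
    have h3 := Finset.card_filter_add_card_filter_not (s := univ.filter fun y => Gr.Adj z y)
      (fun y => Gr.dist x y ≤ Gr.dist x z)
    rw [Finset.filter_filter, Finset.filter_filter, h1, h2] at h3
    have h4 : (univ.filter fun y => Gr.Adj z y ∧ Gr.dist x y = r + 1) =
        univ.filter fun y => Gr.Adj z y ∧ ¬ Gr.dist x y ≤ Gr.dist x z := by
      ext y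
      simp only [mem_filter, mem_univ, true_and]
      constructor
      · exact fun hy => ⟨hy.1, by omega⟩
      · intro hy
        refine ⟨hy.1, ?_⟩
        rcases hdiff y hy.1 with h5 | h5 | h5 <;> omega
    rw [h4]
    omega

theorem sph_step {D R : ℕ} (h : IsTreelike Gr D R) (x : V) (r : ℕ) (hr : r < R) :
    (univ.filter fun y => Gr.dist x y = r + 1).card =
      (univ.filter fun y => Gr.dist x y = r).card * if r = 0 then D else D - 1 := by
  classical
  have e1 : (univ.filter fun y => Gr.dist x y = r + 1).card =
      ∑ y ∈ univ.filter (fun y => Gr.dist x y = r + 1),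
        ∑ z ∈ univ.filter (fun z => Gr.dist x z = r), if Gr.Adj y z then 1 else 0 := by
    rw [Finset.card_eq_sum_ones]
    refine Finset.sum_congr rfl fun y hy => ?_
    have hy1 : Gr.dist x y = r + 1 := by simpa using hy
    have h1 := t_RAD' h x y r hr
    rw [if_pos hy1, if_neg (by omega), add_zero] at h1
    have e0 : (univ.filter fun z => Gr.dist x z = r).filter (fun z => Gr.Adj y z) =
        univ.filter fun z => Gr.Adj y z ∧ Gr.dist x z = r := by
      ext z
      simp only [mem_filter, mem_univ, true_and]
      tauto
    rw [← Finset.sum_filter, e0, ← Finset.card_eq_sum_ones, h1]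
  have e2 : ∀ z ∈ univ.filter (fun z => Gr.dist x z = r),
      (∑ y ∈ univ.filter (fun y => Gr.dist x y = r + 1), if Gr.Adj y z then 1 else 0) =
        if r = 0 then D else D - 1 := by
    intro z hz
    have hz1 : Gr.dist x z = r := by simpa using hz
    rw [← next_card h x z r hr hz1, Finset.card_eq_sum_ones, ← Finset.sum_filter,
      Finset.filter_filter]
    refine Finset.sum_congr ?_ fun _ _ => rfl
    ext y
    simp only [mem_filter, mem_univ, true_and]
    rw [SimpleGraph.adj_comm]
    tauto
  rw [e1, Finset.sum_comm, Finset.sum_congr rfl e2, Finset.sum_const, smul_eq_mul]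

theorem t_SPH' {D R : ℕ} (h : IsTreelike Gr D R) (x : V) (r : ℕ) (hr : r < R) :
    (univ.filter fun y => Gr.dist x y = r + 1).card = D * (D - 1) ^ r := by
  induction r with
  | zero =>
    rw [sph_step h x 0 hr, if_pos rfl, pow_zero, mul_one]
    have e : (univ.filter fun y => Gr.dist x y = 0) = {x} := by
      ext y
      simp only [mem_filter, mem_univ, true_and, mem_singleton]
      rw [zero_iff h.conn, eq_comm]
    rw [e, Finset.card_singleton, one_mul]
  | succ r ih =>
    rw [sph_step h x (r + 1) hr, ih (by omega), if_neg (by omega), pow_succ, mul_assoc]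

/-- **SPH** -/
theorem t_SPH : S_RAD → S_SPH := fun _ V _ _ Gr _ D R _ h x r hr => t_SPH' h x r hr

/-- the entries of the powers of the Laplacian as functions of the distance -/
def ff (D : ℕ) : ℕ → ℕ → ℝ
  | 0, d => if d = 0 then 1 else 0
  | k + 1, d => D * ff D k d - ∑ r ∈ range (k + 1), ff D k r * (((if d = r + 1 then 1 else 0) +
      (if d + 1 = r then (if r = 1 then D else D - 1) else 0) : ℕ) : ℝ)

theorem ff_zero (D k d : ℕ) (h : k < d) : ff D k d = 0 := by
  induction k generalizing d with
  | zero =>
    unfold ff
    rw [if_neg (by omega)]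
  | succ k ih =>
    unfold ff
    rw [ih d (by omega), mul_zero, zero_sub, neg_eq_zero]
    refine Finset.sum_eq_zero fun r hr => ?_
    rw [mem_range] at hr
    rw [if_neg (by omega), if_neg (by omega)]
    simp

theorem lap_pow {D R : ℕ} (h : IsTreelike Gr D R) (k : ℕ) (hk : k ≤ R) (x y : V) :
    (lap (adjT Gr) ^ k) x y = ff D k (Gr.dist x y) := by
  induction k generalizing y with
  | zero =>
    rw [pow_zero]
    unfold ff
    rw [Matrix.one_apply]
    by_cases hxy : x = y
    · subst hxy
      rw [if_pos rfl, SimpleGraph.dist_self, if_pos rfl]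
    · rw [if_neg hxy, if_neg fun h0 => hxy ((zero_iff h.conn).1 h0)]
  | succ k ih =>
    have hrow : ∀ z : V, ∑ w, adjT Gr z w = (D : ℝ) := by
      intro z
      unfold adjT
      rw [Finset.sum_boole, h.reg z]
    have e1 : (lap (adjT Gr) ^ (k + 1)) x y =
        ∑ z, ff D k (Gr.dist x z) * ((if z = y then (D : ℝ) else 0) - adjT Gr z y) := by
      rw [pow_succ, Matrix.mul_apply]
      refine Finset.sum_congr rfl fun z _ => ?_
      rw [ih (by omega) z]
      congr 1
      unfold lap
      rw [hrow]
    have e2 : ∑ z, ff D k (Gr.dist x z) * ((if z = y then (D : ℝ) else 0) - adjT Gr z y) =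
        D * ff D k (Gr.dist x y) - ∑ z, ff D k (Gr.dist x z) * adjT Gr z y := by
      simp only [mul_sub, Finset.sum_sub_distrib, mul_ite, mul_zero, Finset.sum_ite_eq',
        Finset.mem_univ, if_true]
      rw [mul_comm]
    have e3 : ∑ z, ff D k (Gr.dist x z) * adjT Gr z y = ∑ r ∈ range (k + 1), ff D k r *
        ((univ.filter fun z => Gr.Adj y z ∧ Gr.dist x z = r).card : ℝ) := by
      have h1 : ∀ z, ff D k (Gr.dist x z) * adjT Gr z y =
          ∑ r ∈ range (k + 1), ff D k r * (if Gr.Adj y z ∧ Gr.dist x z = r then 1 else 0) := by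
        intro z
        by_cases hz : Gr.Adj y z
        · have h2 : adjT Gr z y = 1 := by
            unfold adjT
            rw [if_pos hz.symm]
          rw [h2, mul_one]
          by_cases hd : Gr.dist x z < k + 1
          · rw [Finset.sum_eq_single_of_mem (Gr.dist x z) (mem_range.2 hd)]
            · rw [if_pos ⟨hz, rfl⟩, mul_one]
            · intro r _ hr
              rw [if_neg fun h0 => hr h0.2.symm, mul_zero]
          · rw [ff_zero D k _ (by omega)]
            symm
            refine Finset.sum_eq_zero fun r hr => ?_
            rw [mem_range] at hr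
            rw [if_neg fun h0 => by omega, mul_zero]
        · have h2 : adjT Gr z y = 0 := by
            unfold adjT
            rw [if_neg fun h0 => hz h0.symm]
          rw [h2, mul_zero]
          symm
          exact Finset.sum_eq_zero fun r _ => by rw [if_neg fun h0 => hz h0.1, mul_zero]
      rw [Finset.sum_congr rfl fun z _ => h1 z, Finset.sum_comm]
      refine Finset.sum_congr rfl fun r _ => ?_
      rw [← Finset.mul_sum, Finset.sum_boole]
    rw [e1, e2, e3]
    conv_rhs => unfold ff
    congr 1
    refine Finset.sum_congr rfl fun r hr => ?_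
    rw [mem_range] at hr
    rw [t_RAD' h x y r (by omega)]

/-- **TLO** -/
theorem t_TLO : S_RAD → S_TLO := by
  intro _ V _ _ Gr _ D R _ h K hK k hk x y
  rw [lap_pow h k (by omega), lap_pow h k (by omega), SimpleGraph.dist_self, SimpleGraph.dist_self]

end Run7.h56.DEP
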